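import Mathlib

namespace Pool.Agent.Results.MP_d43ba4_co.Turan

open Finset

variable {V : Type} [DecidableEq V]

/-- `E` contains a copy of the `r`-expansion of the path with four edges: path vertices `p 0 … p 4`
and four pairwise disjoint sets of `r - 2` new vertices -/
def HasP4 (r : ℕ) (E : Finset (Finset V)) : Prop :=
  ∃ (p : Fin 5 → V) (T : Fin 4 → Finset V), Function.Injective p ∧ (∀ i, (T i).card = r - 2) ∧
    (∀ i j, i ≠ j → Disjoint (T i) (T j)) ∧ (∀ i k, p k ∉ T i) ∧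
    ∀ i : Fin 4, insert (p i.castSucc) (insert (p i.succ) (T i)) ∈ E

/-- the vertex set is partitioned into blocks of size `r ^ 2`, each spanning a Steiner system
`S(2, r, r ^ 2)`, and every hyperedge lies inside a block -/
def AffineUnion (r : ℕ) (E : Finset (Finset V)) : Prop :=
  ∃ P : Finset (Finset V), (∀ v, ∃! B, B ∈ P ∧ v ∈ B) ∧
    (∀ B ∈ P, B.card = r ^ 2 ∧
      ∀ u ∈ B, ∀ v ∈ B, u ≠ v → ∃! e, e ∈ E ∧ e ⊆ B ∧ u ∈ e ∧ v ∈ e) ∧
    ∀ e ∈ E, ∃ B ∈ P, e ⊆ B

def Lin (E : Finset (Finset V)) : Prop :=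
  ∀ e ∈ E, ∀ f ∈ E, ∀ u v, u ∈ e → v ∈ e → u ∈ f → v ∈ f → u ≠ v → e = f

def M (a b : Finset V) : Prop := ∃ v, v ∈ a ∧ v ∈ b

def Co {α : Type} (R : α → α → Prop) (S : Finset α) : Prop :=
  ∀ a ∈ S, ∀ b ∈ S, ∀ c ∈ S, ∀ d ∈ S, R a b → R b c → R c d → ¬ R a c → ¬ R b d → ¬ R a d → False

def Split {α : Type} [DecidableEq α] (R : α → α → Prop) (S : Finset α) : Prop :=
  ∃ A B : Finset α, A.Nonempty ∧ B.Nonempty ∧ Disjoint A B ∧ A ∪ B = S ∧ ∀ a ∈ A, ∀ b ∈ B, R a b

lemma step {α : Type} [DecidableEq α] (R : α → α → Prop) (hs : ∀ a b, R a b → R b a) (x : α)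
    (S : Finset α) (hx : x ∉ S) (hc : Co R (insert x S)) (h : Split (fun a b => ¬ R a b) S) :
    Split R (insert x S) ∨ Split (fun a b => ¬ R a b) (insert x S) := by
  classical
  obtain ⟨A, B, hA, hB, hd, rfl, h⟩ := h
  have xA : x ∉ A := fun c => hx (mem_union_left _ c)
  have xB : x ∉ B := fun c => hx (mem_union_right _ c)
  by_cases c1 : ∀ a ∈ A, ¬ R a x
  · refine Or.inr ⟨A, insert x B, hA, insert_nonempty _ _, by simp [xA, hd], by simp, ?_⟩
    intro a ha b hb
    rcases mem_insert.1 hb with rfl | hb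
    · exact c1 a ha
    · exact h a ha b hb
  by_cases c2 : ∀ b ∈ B, ¬ R x b
  · refine Or.inr ⟨insert x A, B, insert_nonempty _ _, hB, by simp [xB, hd], by simp, ?_⟩
    intro a ha b hb
    rcases mem_insert.1 ha with rfl | ha
    · exact c2 b hb
    · exact h a ha b hb
  push Not at c1 c2
  obtain ⟨a0, ha0, r1⟩ := c1
  obtain ⟨b0, hb0, r2⟩ := c2
  by_cases c3 : ∀ y ∈ A ∪ B, R x y
  · refine Or.inl ⟨{x}, A ∪ B, singleton_nonempty _, hA.mono subset_union_left, by simpa using ⟨xA, xB⟩,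
      by simp, fun a ha b hb => ?_⟩
    rw [mem_singleton.1 ha]; exact c3 b hb
  push Not at c3
  obtain ⟨y0, hy0, r3⟩ := c3
  refine Or.inr ⟨(A ∪ B).filter (fun y => ¬ R x y), insert x ((A ∪ B).filter (fun y => R x y)),
    ⟨y0, mem_filter.2 ⟨hy0, r3⟩⟩, insert_nonempty _ _, ?_, ?_, ?_⟩
  · rw [disjoint_left]
    intro y h1 h2
    rcases mem_insert.1 h2 with rfl | h2
    · exact hx (mem_filter.1 h1).1
    · exact (mem_filter.1 h1).2 (mem_filter.1 h2).2
  · ext y
    simp only [mem_union, mem_filter, mem_insert]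
    tauto
  · intro y hy z hz ryz
    obtain ⟨hy, ry⟩ := mem_filter.1 hy
    rcases mem_insert.1 hz with rfl | hz
    · exact ry (hs _ _ ryz)
    obtain ⟨hz, rz⟩ := mem_filter.1 hz
    have m : ∀ w ∈ A ∪ B, w ∈ insert x (A ∪ B) := fun w hw => mem_insert_of_mem hw
    rcases mem_union.1 hy with hy' | hy' <;> rcases mem_union.1 hz with hz' | hz'
    · exact hc y (m _ hy) z (m _ hz) x (mem_insert_self _ _) b0 (m _ (mem_union_right _ hb0)) ryz
        (hs _ _ rz) r2 (fun c => ry (hs _ _ c)) (h z hz' b0 hb0) (h y hy' b0 hb0)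
    · exact h y hy' z hz' ryz
    · exact h z hz' y hy' (hs _ _ ryz)
    · exact hc y (m _ hy) z (m _ hz) x (mem_insert_self _ _) a0 (m _ (mem_union_left _ ha0)) ryz
        (hs _ _ rz) (hs _ _ r1) (fun c => ry (hs _ _ c)) (fun c => h a0 ha0 z hz' (hs _ _ c))
        (fun c => h a0 ha0 y hy' (hs _ _ c))

lemma split {α : Type} [DecidableEq α] (R : α → α → Prop) (hs : ∀ a b, R a b → R b a)
    (S : Finset α) (hc : Co R S) (h2 : 2 ≤ S.card) :
    Split R S ∨ Split (fun a b => ¬ R a b) S := by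
  classical
  induction S using Finset.induction_on with
  | empty => simp at h2
  | insert x S hx ih =>
    rw [card_insert_of_notMem hx] at h2
    rcases Nat.lt_or_ge S.card 2 with c | c
    · obtain ⟨y, rfl⟩ := card_eq_one.1 (show S.card = 1 by omega)
      have d : Disjoint ({x} : Finset α) {y} := by simpa using hx
      by_cases k : R x y
      · exact Or.inl ⟨{x}, {y}, by simp, by simp, d, by simp, by simpa using k⟩
      · exact Or.inr ⟨{x}, {y}, by simp, by simp, d, by simp, by simpa using k⟩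
    have m : ∀ w ∈ S, w ∈ insert x S := fun w hw => mem_insert_of_mem hw
    rcases ih (fun a ha b hb c hc' d hd => hc a (m _ ha) b (m _ hb) c (m _ hc') d (m _ hd)) c with
      h | h
    · have := step (fun a b => ¬ R a b) (fun a b h c => h (hs _ _ c)) x S hx
        (fun a ha b hb c hc' d hd h1 h2 h3 h4 h5 h6 =>
          hc c hc' a ha d hd b hb (hs _ _ (not_not.1 h4)) (not_not.1 h6) (hs _ _ (not_not.1 h5)) h3 h1
            (fun k => h2 (hs _ _ k))) (by simpa only [not_not] using h)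
      simpa only [not_not] using this.symm
    · exact step R hs x S hx hc h

def U (E : Finset (Finset V)) : Finset V := E.biUnion id

def St (E : Finset (Finset V)) (v : V) : Finset (Finset V) := E.filter (fun e => v ∈ e)

lemma memU {E : Finset (Finset V)} {v : V} : v ∈ U E ↔ ∃ e ∈ E, v ∈ e := by simp [U]

lemma memSt {E : Finset (Finset V)} {v : V} {e : Finset V} : e ∈ St E v ↔ e ∈ E ∧ v ∈ e := by
  simp [St]

lemma star_card {r : ℕ} {E : Finset (Finset V)} (hu : ∀ e ∈ E, e.card = r) (hl : Lin E) (v : V)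
    (S : Finset (Finset V)) (hS : S ⊆ St E v) : ((U S).erase v).card = S.card * (r - 1) := by
  have : (U S).erase v = S.biUnion (fun e => e.erase v) := by
    ext w; simp only [mem_erase, memU, mem_biUnion]; tauto
  rw [this, card_biUnion, sum_congr rfl (g := fun _ => r - 1), sum_const, smul_eq_mul]
  · intro e he
    obtain ⟨a, b⟩ := memSt.1 (hS he)
    rw [card_erase_of_mem b, hu e a]
  · intro e he f hf hne
    rw [Function.onFun, disjoint_left]
    intro w h1 h2
    obtain ⟨a, b⟩ := memSt.1 (hS he)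
    obtain ⟨c, d⟩ := memSt.1 (hS hf)
    exact hne (hl e a f c w v (mem_erase.1 h1).2 b (mem_erase.1 h2).2 d (mem_erase.1 h1).1)

lemma meet_le {E : Finset (Finset V)} (hl : Lin E) (v : V) (S : Finset (Finset V)) (hS : S ⊆ St E v)
    (T : Finset V) (hv : v ∉ T) (h : ∀ x ∈ S, M x T) : S.card ≤ T.card := by
  haveI : Nonempty V := ⟨v⟩
  choose! p hp using h
  refine card_le_card_of_injOn p (fun x hx => (hp x hx).2) (fun x hx y hy c => ?_)
  obtain ⟨a, b⟩ := memSt.1 (hS hx)
  obtain ⟨c', d⟩ := memSt.1 (hS hy)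
  exact hl x a y c' (p x) v (hp x hx).1 b (c ▸ (hp y hy).1) d (fun k => hv (k ▸ (hp x hx).2))

lemma deg_sum {r : ℕ} (A : Finset (Finset V)) (hu : ∀ e ∈ A, e.card = r) (W : Finset V)
    (hW : ∀ e ∈ A, e ⊆ W) : ∑ v ∈ W, (St A v).card = r * A.card := by
  simp only [St, card_filter]
  rw [sum_comm, sum_congr rfl (g := fun _ => r), sum_const, smul_eq_mul, mul_comm]
  intro e he
  rw [← card_filter, filter_mem_eq_inter, inter_eq_right.2 (hW e he), hu e he]

lemma cross_sum (A B : Finset (Finset V)) (hl : Lin (A ∪ B)) (hd : Disjoint A B)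
    (h : ∀ a ∈ A, ∀ b ∈ B, M a b) :
    ∑ v ∈ U (A ∪ B), (St A v).card * (St B v).card = A.card * B.card := by
  simp only [St, card_filter, sum_mul_sum]
  rw [sum_comm, sum_congr rfl (g := fun _ => B.card), sum_const, smul_eq_mul]
  intro a ha
  rw [sum_comm, sum_congr rfl (g := fun _ => 1), sum_const, smul_eq_mul, mul_one]
  intro b hb
  obtain ⟨p, h1, h2⟩ := h a ha b hb
  rw [sum_eq_single_of_mem p (memU.2 ⟨a, mem_union_left _ ha, h1⟩)]
  · simp [h1, h2]
  · intro q _ hq
    by_cases c1 : q ∈ a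
    · by_cases c2 : q ∈ b
      · have := hl a (mem_union_left _ ha) b (mem_union_right _ hb) q p c1 h1 c2 h2 hq
        exact (disjoint_left.1 hd ha (this ▸ hb)).elim
      · simp [c2]
    · simp [c1]

lemma star_le {r : ℕ} {E : Finset (Finset V)} (hu : ∀ e ∈ E, e.card = r) (hl : Lin E) (v : V)
    (hv : v ∈ U E) : (St E v).card * (r - 1) + 1 ≤ (U E).card := by
  rw [← star_card hu hl v _ Subset.rfl, ← card_erase_add_one hv]
  refine Nat.succ_le_succ (card_le_card (erase_subset_erase _ fun w hw => ?_))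
  obtain ⟨e, he, h⟩ := memU.1 hw
  exact memU.2 ⟨e, (memSt.1 he).1, h⟩

lemma big {r : ℕ} (hr : 3 ≤ r) {E : Finset (Finset V)} (hu : ∀ e ∈ E, e.card = r) (hl : Lin E)
    (hc : Co M E) (v : V) (β : Finset V) (hβ : β ∈ E) (hv : v ∈ β) (hb : ∀ e ∈ E, M e β)
    (hd : 2 * r + 1 ≤ (St E v).card) : r * E.card < (r + 1) * (U E).card := by
  classical
  have hne : (β.erase v).Nonempty := by
    rw [← card_pos, card_erase_of_mem hv, hu β hβ]; omega
  obtain ⟨w, hw, hmax⟩ := (β.erase v).exists_max_image (fun w => ((St E w).erase β).card) hne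
  have cov : E ⊆ St E v ∪ (β.erase v).biUnion (fun w => (St E w).erase β) := by
    intro e he
    by_cases c : v ∈ e
    · exact mem_union_left _ (memSt.2 ⟨he, c⟩)
    · obtain ⟨p, h1, h2⟩ := hb e he
      exact mem_union_right _ (mem_biUnion.2 ⟨p, mem_erase.2 ⟨fun k => c (k ▸ h1), h2⟩,
        mem_erase.2 ⟨fun k => c (k ▸ hv), memSt.2 ⟨he, h1⟩⟩⟩)
  have hm : E.card ≤ (St E v).card + (r - 1) * ((St E w).erase β).card := by
    refine (card_le_card cov).trans ((card_union_le _ _).trans (Nat.add_le_add_left ?_ _))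
    refine card_biUnion_le.trans ((sum_le_card_nsmul _ _ _ hmax).trans ?_)
    rw [card_erase_of_mem hv, hu β hβ, smul_eq_mul]
  have hvU : v ∈ U E := memU.2 ⟨β, hβ, hv⟩
  have h1 := star_le hu hl v hvU
  obtain ⟨s, rfl⟩ : ∃ s, r = s + 3 := ⟨r - 3, by omega⟩
  simp only [show s + 3 - 1 = s + 2 by omega] at *
  set Y := (St E w).erase β with hY
  obtain ⟨wv, wβ⟩ := mem_erase.1 hw
  rcases Nat.lt_or_ge Y.card (s + 3) with c | c
  · obtain ⟨k, hk⟩ := Nat.exists_eq_add_of_le hd
    have : E.card ≤ (St E v).card + (s + 2) * (s + 2) :=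
      hm.trans (Nat.add_le_add_left (Nat.mul_le_mul_left _ (by omega)) _)
    rw [hk] at this h1
    nlinarith [Nat.zero_le (s * k), Nat.zero_le (s * s * k), Nat.zero_le (s * s * s), Nat.zero_le (s * s),
      Nat.mul_le_mul_left (s + 3) this, Nat.mul_le_mul_left (s + 3 + 1) h1]
  have YE : ∀ y ∈ Y, y ∈ E ∧ w ∈ y ∧ v ∉ y := by
    intro y hy
    obtain ⟨a, b⟩ := mem_erase.1 hy
    obtain ⟨b1, b2⟩ := memSt.1 b
    exact ⟨b1, b2, fun k => a (hl y b1 β hβ w v b2 k wβ hv wv)⟩
  have XE : ∀ x ∈ (St E v).erase β, x ∈ E ∧ v ∈ x ∧ w ∉ x := by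
    intro y hy
    obtain ⟨a, b⟩ := mem_erase.1 hy
    obtain ⟨b1, b2⟩ := memSt.1 b
    exact ⟨b1, b2, fun k => a (hl y b1 β hβ w v k b2 wβ hv wv)⟩
  have few : ∀ y ∈ Y, (((St E v).erase β).filter (fun x => M x y)).card ≤ s + 2 := by
    intro y hy
    obtain ⟨a1, a2, a3⟩ := YE y hy
    have := meet_le hl v (((St E v).erase β).filter (fun x => M x y))
      ((filter_subset _ _).trans (erase_subset _ _)) (y.erase w) (fun k => a3 (mem_erase.1 k).2)
      (fun x hx => by
        obtain ⟨b1, p, b2, b3⟩ := mem_filter.1 hx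
        exact ⟨p, b2, mem_erase.2 ⟨fun k => (XE x b1).2.2 (k ▸ b2), b3⟩⟩)
    rw [card_erase_of_mem a2, hu y a1] at this
    exact this
  have sep : ∀ x ∈ (St E v).erase β, ∀ y ∈ Y, ¬ M x y := by
    intro x hx y hy k
    obtain ⟨a1, a2, a3⟩ := XE x hx
    have : ∃ y' ∈ Y, ¬ M y' x := by
      by_contra q
      push Not at q
      have := meet_le hl w Y (erase_subset _ _) (x.erase v) (fun k => a3 (mem_erase.1 k).2)
        (fun y' hy' => by
          obtain ⟨p, b2, b3⟩ := q y' hy'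
          exact ⟨p, b2, mem_erase.2 ⟨fun k => (YE y' hy').2.2 (k ▸ b2), b3⟩⟩)
      rw [card_erase_of_mem a2, hu x a1] at this
      omega
    obtain ⟨y', hy', ny⟩ := this
    have : ∃ x' ∈ (St E v).erase β, ¬ M x' y ∧ ¬ M x' y' := by
      by_contra q
      have sub : (St E v).erase β ⊆ ((St E v).erase β).filter (fun x => M x y) ∪
          ((St E v).erase β).filter (fun x => M x y') := by
        intro x' hx'
        by_contra q'
        simp only [mem_union, mem_filter, hx', true_and, not_or] at q'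
        exact q ⟨x', hx', q'⟩
      have := (card_le_card sub).trans (card_union_le _ _)
      rw [card_erase_of_mem (memSt.2 ⟨hβ, hv⟩)] at this
      have := few y hy
      have := few y' hy'
      omega
    obtain ⟨x', hx', n1, n2⟩ := this
    exact hc x' (XE _ hx').1 x a1 y (YE _ hy).1 y' (YE _ hy').1 ⟨v, (XE _ hx').2.1, a2⟩ k
      ⟨w, (YE _ hy).2.1, (YE _ hy').2.1⟩ n1 (fun ⟨p, b1, b2⟩ => ny ⟨p, b2, b1⟩) n2
  have dj : Disjoint ((U (St E v)).erase v) ((U Y).erase w) := by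
    rw [disjoint_left]
    intro p h1 h2
    obtain ⟨x, hx, px⟩ := memU.1 (mem_erase.1 h1).2
    obtain ⟨y, hy, py⟩ := memU.1 (mem_erase.1 h2).2
    by_cases q : x = β
    · exact (mem_erase.1 hy).1 (hl y (YE y hy).1 β hβ p w py (YE y hy).2.1 (q ▸ px) wβ
        (mem_erase.1 h2).1)
    · exact sep x (mem_erase.2 ⟨q, hx⟩) y hy ⟨p, px, py⟩
  have h2 : ((U (St E v)).erase v ∪ (U Y).erase w).card ≤ (U E).card := by
    refine card_le_card (union_subset (fun p hp => ?_) (fun p hp => ?_))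
    · obtain ⟨x, hx, px⟩ := memU.1 (mem_erase.1 hp).2
      exact memU.2 ⟨x, (memSt.1 hx).1, px⟩
    · obtain ⟨x, hx, px⟩ := memU.1 (mem_erase.1 hp).2
      exact memU.2 ⟨x, (YE x hx).1, px⟩
  rw [card_union_of_disjoint dj, star_card hu hl v _ Subset.rfl, star_card hu hl w _ (erase_subset _ _),
    show s + 3 - 1 = s + 2 by omega] at h2
  nlinarith [Nat.mul_le_mul_left (s + 3) hm, Nat.mul_le_mul_left (s + 3 + 1) h2,
    Nat.zero_le (s * (St E v).card), Nat.zero_le (s * s * (St E v).card), Nat.zero_le (s * Y.card)]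

def Loc (r : ℕ) (E : Finset (Finset V)) : Prop :=
  ∀ v ∈ U E, (U (St E v)).card = r ^ 2 ∧ ∀ w ∈ U (St E v), U (St E w) = U (St E v)

lemma St_union (A B : Finset (Finset V)) (hd : Disjoint A B) (v : V) :
    (St (A ∪ B) v).card = (St A v).card + (St B v).card := by
  simp only [St]
  rw [filter_union, card_union_of_disjoint (disjoint_filter_filter hd)]

lemma join {r : ℕ} (hr : 3 ≤ r) (A B : Finset (Finset V)) (hA : A.Nonempty) (hB : B.Nonempty)
    (hd : Disjoint A B) (h : ∀ a ∈ A, ∀ b ∈ B, M a b) (hu : ∀ e ∈ A ∪ B, e.card = r)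
    (hl : Lin (A ∪ B)) (hc : Co M (A ∪ B)) :
    r * (A ∪ B).card ≤ (r + 1) * (U (A ∪ B)).card ∧
      (r * (A ∪ B).card = (r + 1) * (U (A ∪ B)).card → Loc r (A ∪ B)) := by
  have hne : (U (A ∪ B)).Nonempty := by
    obtain ⟨a, ha⟩ := hA
    obtain ⟨b, hb⟩ := hB
    obtain ⟨p, h1, -⟩ := h a ha b hb
    exact ⟨p, memU.2 ⟨a, mem_union_left _ ha, h1⟩⟩
  obtain ⟨v, hv, hmax⟩ := (U (A ∪ B)).exists_max_image (fun w => (St (A ∪ B) w).card) hne
  suffices k : r * (A ∪ B).card < (r + 1) * (U (A ∪ B)).card ∨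
      (r * (A ∪ B).card = (r + 1) * (U (A ∪ B)).card ∧ Loc r (A ∪ B)) by
    rcases k with k | k
    · exact ⟨k.le, fun c => (k.ne c).elim⟩
    · exact ⟨k.1.le, fun _ => k.2⟩
  rcases Nat.lt_or_ge (2 * r) (St (A ∪ B) v).card with c | c
  · left
    have g : ∀ A' B' : Finset (Finset V), A' ∪ B' = A ∪ B → B'.Nonempty →
        (∀ a ∈ A', ∀ b ∈ B', M a b) → r < (St A' v).card →
        r * (A ∪ B).card < (r + 1) * (U (A ∪ B)).card := by
      intro A' B' e ⟨β, hβ⟩ h' c'
      have all : ∀ b ∈ B', v ∈ b := by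
        intro b hb
        by_contra q
        have := meet_le hl v (St A' v) (fun x hx => memSt.2 ⟨e ▸ mem_union_left _ (memSt.1 hx).1,
          (memSt.1 hx).2⟩) b q (fun x hx => h' x (memSt.1 hx).1 b hb)
        rw [hu b (e ▸ mem_union_right _ hb)] at this
        omega
      refine big hr hu hl hc v β (e ▸ mem_union_right _ hβ) (all β hβ) (fun x hx => ?_) c
      rw [← e] at hx
      rcases mem_union.1 hx with hx | hx
      · exact h' x hx β hβ
      · exact ⟨v, all x hx, all β hβ⟩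
    rw [St_union A B hd] at c
    rcases Nat.lt_or_ge r (St A v).card with c1 | c1
    · exact g A B rfl hB h c1
    · exact g B A (union_comm _ _) hA (fun b hb a ha => by
        obtain ⟨p, h1, h2⟩ := h a ha b hb; exact ⟨p, h2, h1⟩) (by omega)
  have sub : ∀ e ∈ A ∪ B, e ⊆ U (A ∪ B) := fun e he p hp => memU.2 ⟨e, he, hp⟩
  have sa := deg_sum A (fun e he => hu e (mem_union_left _ he)) _
    (fun e he => sub e (mem_union_left _ he))
  have sb := deg_sum B (fun e he => hu e (mem_union_right _ he)) _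
    (fun e he => sub e (mem_union_right _ he))
  have sc := cross_sum A B hl hd h
  have h1 := star_le hu hl v hv
  have mc := card_union_of_disjoint hd
  have a0 : 0 < A.card := card_pos.2 hA
  have b0 : 0 < B.card := card_pos.2 hB
  set D := (St (A ∪ B) v).card with hD
  set W := U (A ∪ B) with hW
  let a : V → ℤ := fun w => (St A w).card
  let b : V → ℤ := fun w => (St B w).card
  have sa' : ∑ w ∈ W, a w = r * A.card := by simp only [a]; exact_mod_cast sa
  have sb' : ∑ w ∈ W, b w = r * B.card := by simp only [b]; exact_mod_cast sb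
  have sc' : ∑ w ∈ W, a w * b w = A.card * B.card := by simp only [a, b]; exact_mod_cast sc
  have an : ∀ w, 0 ≤ a w := fun w => by simp [a]
  have bn : ∀ w, 0 ≤ b w := fun w => by simp [b]
  have le : ∀ w ∈ W, a w + b w ≤ D := fun w hw => by
    have := hmax w hw
    rw [St_union A B hd] at this
    simp only [a, b]; exact_mod_cast this
  let F : V → ℤ := fun w => a w * (r * b w - B.card) ^ 2 + b w * (r * a w - A.card) ^ 2
  have Fn : ∀ w ∈ W, 0 ≤ F w := fun w _ =>
    add_nonneg (mul_nonneg (an w) (sq_nonneg _)) (mul_nonneg (bn w) (sq_nonneg _))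
  have FS : ∑ w ∈ W, F w ≤ r * A.card * B.card * (r * D - (A.card + B.card)) := by
    have : ∑ w ∈ W, F w ≤ ∑ w ∈ W, ((r ^ 2 * D - 2 * r * B.card - 2 * r * A.card) * (a w * b w) +
        (B.card : ℤ) ^ 2 * a w + (A.card : ℤ) ^ 2 * b w) := by
      refine sum_le_sum fun w hw => ?_
      have := mul_le_mul_of_nonneg_left (le w hw)
        (mul_nonneg (sq_nonneg (r : ℤ)) (mul_nonneg (an w) (bn w)))
      simp only [F]
      nlinarith
    refine this.trans (le_of_eq ?_)
    rw [sum_add_distrib, sum_add_distrib, ← mul_sum, ← mul_sum, ← mul_sum, sa', sb', sc']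
    ring
  have pos : (0 : ℤ) < r * A.card * B.card := by positivity
  have mle : (0 : ℤ) ≤ r * D - (A.card + B.card) :=
    nonneg_of_mul_nonneg_right ((sum_nonneg Fn).trans FS) pos |> fun h => h
  obtain ⟨s, rfl⟩ : ∃ s, r = s + 1 := ⟨r - 1, by omega⟩
  simp only [Nat.add_sub_cancel] at h1
  rcases mle.eq_or_lt with e | e
  · rw [← e, mul_zero] at FS
    have F0 := (sum_eq_zero_iff_of_nonneg Fn).1 (le_antisymm FS (sum_nonneg Fn))
    have reg : ∀ w ∈ W, ((s + 1 : ℕ) : ℤ) * a w = A.card ∧ ((s + 1 : ℕ) : ℤ) * b w = B.card := by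
      intro w hw
      have f := F0 w hw
      have f1 : a w * (((s + 1 : ℕ) : ℤ) * b w - B.card) ^ 2 = 0 := by
        simp only [F] at f
        nlinarith [mul_nonneg (an w) (sq_nonneg (((s + 1 : ℕ) : ℤ) * b w - B.card)),
          mul_nonneg (bn w) (sq_nonneg (((s + 1 : ℕ) : ℤ) * a w - A.card))]
      have f2 : b w * (((s + 1 : ℕ) : ℤ) * a w - A.card) ^ 2 = 0 := by
        simp only [F] at f; linarith
      have p : 0 < a w + b w := by
        obtain ⟨e, he, hwe⟩ := memU.1 hw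
        have := card_pos.2 ⟨e, memSt.2 ⟨he, hwe⟩⟩
        rw [St_union A B hd] at this
        simp only [a, b]; exact_mod_cast this
      have a0' : (0 : ℤ) < A.card := by exact_mod_cast a0
      have b0' : (0 : ℤ) < B.card := by exact_mod_cast b0
      simp only [mul_eq_zero, pow_eq_zero_iff (two_ne_zero), sub_eq_zero] at f1 f2
      rcases f1 with f1 | f1 <;> rcases f2 with f2 | f2
      · omega
      · rw [f1] at f2; omega
      · rw [f2] at f1; omega
      · exact ⟨f2, f1⟩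
    have n1 : W.card = (s + 1) ^ 2 := by
      have : ∑ w ∈ W, ((s + 1 : ℕ) : ℤ) * a w = W.card * A.card := by
        rw [sum_congr rfl (fun w hw => (reg w hw).1), sum_const, nsmul_eq_mul]
      rw [← mul_sum, sa'] at this
      have : W.card * A.card = (s + 1) ^ 2 * A.card := by
        zify; push_cast at this; linarith
      exact Nat.eq_of_mul_eq_mul_right a0 this
    have mD : A.card + B.card = (s + 1) * D := by zify; push_cast at e; linarith
    have Dle : D ≤ s + 2 := by rw [n1] at h1; nlinarith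
    rcases Dle.eq_or_lt with d | d
    · right
      refine ⟨by rw [mc, mD, n1, d]; ring, ?_⟩
      have full : ∀ w ∈ W, U (St (A ∪ B) w) = W := by
        intro w hw
        have dw : (St (A ∪ B) w).card = s + 2 := by
          have := reg w hw
          rw [St_union A B hd]
          apply Nat.eq_of_mul_eq_mul_left (Nat.succ_pos s)
          rw [← d, ← mD]
          simp only [a, b] at this
          zify; push_cast at this ⊢; linarith [this.1, this.2]
        have wm : w ∈ U (St (A ∪ B) w) := by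
          obtain ⟨e, he, hwe⟩ := memU.1 hw
          exact memU.2 ⟨e, memSt.2 ⟨he, hwe⟩, hwe⟩
        refine eq_of_subset_of_card_le (fun p hp => ?_) ?_
        · obtain ⟨e, he, hpe⟩ := memU.1 hp
          exact memU.2 ⟨e, (memSt.1 he).1, hpe⟩
        · rw [← card_erase_add_one wm, star_card hu hl w _ Subset.rfl, dw, n1, Nat.add_sub_cancel]
          nlinarith
      intro w hw
      rw [full w hw]
      exact ⟨n1, full⟩
    · left
      rw [mc, mD, n1]
      nlinarith [Nat.mul_le_mul_left ((s + 1) ^ 2) (show D + 1 ≤ s + 2 from d)]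
  · left
    have mD : A.card + B.card + 1 ≤ (s + 1) * D := by zify; push_cast at e; linarith
    rw [mc]
    nlinarith [Nat.mul_le_mul_left (s + 1) mD, Nat.mul_le_mul_left (s + 2) h1]

lemma main {r : ℕ} (hr : 3 ≤ r) (E : Finset (Finset V)) (hu : ∀ e ∈ E, e.card = r) (hl : Lin E)
    (hc : Co M E) :
    r * E.card ≤ (r + 1) * (U E).card ∧ (r * E.card = (r + 1) * (U E).card → Loc r E) := by
  induction E using Finset.strongInduction with
  | H E ih =>
  rcases Nat.lt_or_ge E.card 2 with c | c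
  · rcases Nat.lt_or_ge E.card 1 with c1 | c1
    · obtain rfl := card_eq_zero.1 (show E.card = 0 by omega)
      simp [U, Loc]
    · obtain ⟨e, rfl⟩ := card_eq_one.1 (show E.card = 1 by omega)
      have := hu e (mem_singleton_self _)
      simp only [U, singleton_biUnion, id, card_singleton, this]
      exact ⟨by nlinarith, fun k => by nlinarith⟩
  rcases split M (fun a b ⟨p, h1, h2⟩ => ⟨p, h2, h1⟩) E hc c with
    ⟨A, B, hA, hB, hd, rfl, h⟩ | ⟨A, B, hA, hB, hd, rfl, h⟩
  · exact join hr A B hA hB hd h hu hl hc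
  have g : ∀ A' ⊆ A ∪ B, A' ≠ A ∪ B → r * A'.card ≤ (r + 1) * (U A').card ∧
      (r * A'.card = (r + 1) * (U A').card → Loc r A') := fun A' s n =>
    ih A' (Finset.ssubset_iff_subset_ne.2 ⟨s, n⟩) (fun e he => hu e (s he))
      (fun e he f hf => hl e (s he) f (s hf))
      (fun a ha b hb c hc' d hd => hc a (s ha) b (s hb) c (s hc') d (s hd))
  have gA := g A subset_union_left (fun k => by
    obtain ⟨b, hb⟩ := hB
    exact disjoint_left.1 hd (k ▸ mem_union_right _ hb) hb)
  have gB := g B subset_union_right (fun k => by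
    obtain ⟨a, ha⟩ := hA
    exact disjoint_left.1 hd ha (k ▸ mem_union_left _ ha))
  have dU : Disjoint (U A) (U B) := by
    rw [disjoint_left]
    intro p h1 h2
    obtain ⟨a, ha, pa⟩ := memU.1 h1
    obtain ⟨b, hb, pb⟩ := memU.1 h2
    exact h a ha b hb ⟨p, pa, pb⟩
  have eU : U (A ∪ B) = U A ∪ U B := by simp [U, union_biUnion]
  rw [card_union_of_disjoint hd, eU, card_union_of_disjoint dU, mul_add, mul_add]
  refine ⟨by omega, fun k => ?_⟩
  have lift : ∀ A' B' : Finset (Finset V), Disjoint (U A') (U B') → Loc r A' → ∀ v ∈ U A',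
      (U (St (A' ∪ B') v)).card = r ^ 2 ∧
        ∀ w ∈ U (St (A' ∪ B') v), U (St (A' ∪ B') w) = U (St (A' ∪ B') v) := by
    intro A' B' dj l
    have e : ∀ v ∈ U A', St (A' ∪ B') v = St A' v := by
      intro v hv
      ext x
      simp only [memSt, mem_union]
      exact ⟨fun ⟨a, b⟩ => ⟨a.resolve_right fun q => disjoint_left.1 dj hv (memU.2 ⟨x, q, b⟩), b⟩,
        fun ⟨a, b⟩ => ⟨Or.inl a, b⟩⟩
    intro v hv
    rw [e v hv]
    refine ⟨(l v hv).1, fun w hw => ?_⟩
    obtain ⟨x, hx, wx⟩ := memU.1 hw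
    rw [e w (memU.2 ⟨x, (memSt.1 hx).1, wx⟩)]
    exact (l v hv).2 w hw
  intro v hv
  rw [eU] at hv
  rcases mem_union.1 hv with hv | hv
  · exact lift A B dU (gA.2 (by omega)) v hv
  · rw [union_comm]; exact lift B A dU.symm (gB.2 (by omega)) v hv

lemma co_of {r : ℕ} (hr : 3 ≤ r) (E : Finset (Finset V)) (hu : ∀ e ∈ E, e.card = r) (hl : Lin E)
    (h : ¬ HasP4 r E) : Co M E := by
  intro a ha b hb c hc d hd ⟨p1, a1, b1⟩ ⟨p2, b2, c2⟩ ⟨p3, c3, d3⟩ ac bd ad
  simp only [M, not_exists, not_and] at ac bd ad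
  have ex : ∀ e ∈ E, ∀ p, ∃ q ∈ e, q ≠ p := fun e he p =>
    exists_mem_ne (by rw [hu e he]; omega) p
  obtain ⟨p0, a0, n0⟩ := ex a ha p1
  obtain ⟨p4, d4, n4⟩ := ex d hd p3
  have ab : ∀ x ∈ a, x ∈ b → x = p1 := fun x h1 h2 => by
    by_contra k
    exact ac p2 (hl a ha b hb x p1 h1 a1 h2 b1 k ▸ b2) c2
  have bc : ∀ x ∈ b, x ∈ c → x = p2 := fun x h1 h2 => by
    by_contra k
    exact ac p1 a1 (hl b hb c hc x p2 h1 b2 h2 c2 k ▸ b1)
  have cd : ∀ x ∈ c, x ∈ d → x = p3 := fun x h1 h2 => by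
    by_contra k
    exact bd p2 b2 (hl c hc d hd x p3 h1 c3 h2 d3 k ▸ c2)
  have n12 : p1 ≠ p2 := fun k => ac p1 a1 (k ▸ c2)
  have n23 : p2 ≠ p3 := fun k => bd p2 b2 (k ▸ d3)
  have cc : ∀ e ∈ E, ∀ x y, x ∈ e → y ∈ e → x ≠ y → ((e.erase x).erase y).card = r - 2 ∧
      insert x (insert y ((e.erase x).erase y)) ∈ E := by
    intro e he x y hx hy n
    have hy' : y ∈ e.erase x := mem_erase.2 ⟨n.symm, hy⟩
    refine ⟨by rw [card_erase_of_mem hy', card_erase_of_mem hx, hu e he]; omega, ?_⟩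
    rw [insert_erase hy', insert_erase hx]; exact he
  refine h ⟨![p0, p1, p2, p3, p4], ![(a.erase p0).erase p1, (b.erase p1).erase p2,
    (c.erase p2).erase p3, (d.erase p3).erase p4], ?_, ?_, ?_, ?_, ?_⟩
  · intro i j
    fin_cases i <;> fin_cases j <;> simp <;> grind
  · intro i
    fin_cases i
    exacts [(cc a ha _ _ a0 a1 n0).1, (cc b hb _ _ b1 b2 n12).1, (cc c hc _ _ c2 c3 n23).1,
      (cc d hd _ _ d3 d4 n4.symm).1]
  · intro i j
    fin_cases i <;> fin_cases j <;> simp [disjoint_left] <;> grind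
  · intro i k
    fin_cases i <;> fin_cases k <;> simp <;> grind
  · intro i
    fin_cases i
    exacts [(cc a ha _ _ a0 a1 n0).2, (cc b hb _ _ b1 b2 n12).2, (cc c hc _ _ c2 c3 n23).2,
      (cc d hd _ _ d3 d4 n4.symm).2]

theorem result (r n : ℕ) (hr : 3 ≤ r) (E : Finset (Finset (Fin n))) (hu : ∀ e ∈ E, e.card = r)
    (hlin : ∀ e ∈ E, ∀ f ∈ E, e ≠ f → (e ∩ f).card ≤ 1) (hP : ¬ HasP4 r E) :
    r * E.card ≤ (r + 1) * n ∧ (r * E.card = (r + 1) * n ↔ AffineUnion r E) := by
  have hl : Lin E := fun e he f hf u v h1 h2 h3 h4 n => by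
    by_contra k
    exact n (card_le_one.1 (hlin e he f hf k) u (mem_inter.2 ⟨h1, h3⟩) v (mem_inter.2 ⟨h2, h4⟩))
  obtain ⟨m1, m2⟩ := main hr E hu hl (co_of hr E hu hl hP)
  have un : (U E).card ≤ n := by simpa using card_le_univ (U E)
  have un' := Nat.mul_le_mul_left (r + 1) un
  refine ⟨m1.trans un', fun k => ?_, ?_⟩
  · have e : (U E).card = n := Nat.eq_of_mul_eq_mul_left (show 0 < r + 1 by omega) (by omega)
    have l := m2 (by rw [e, k])
    have all : ∀ v, v ∈ U E := fun v => by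
      rw [eq_univ_of_card (U E) (by simpa using e)]; exact mem_univ _
    have self : ∀ v, v ∈ U (St E v) := fun v => by
      obtain ⟨x, hx, vx⟩ := memU.1 (all v)
      exact memU.2 ⟨x, memSt.2 ⟨hx, vx⟩, vx⟩
    refine ⟨univ.image (fun v => U (St E v)), fun v => ⟨U (St E v), ⟨mem_image_of_mem _ (mem_univ _),
      self v⟩, fun B ⟨h1, h2⟩ => ?_⟩, fun B hB => ?_, fun x hx => ?_⟩
    · obtain ⟨w, -, rfl⟩ := mem_image.1 h1
      exact ((l w (all w)).2 v h2).symm
    · obtain ⟨w, -, rfl⟩ := mem_image.1 hB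
      refine ⟨(l w (all w)).1, fun u hu' v hv n => ?_⟩
      rw [← (l w (all w)).2 u hu'] at hv ⊢
      obtain ⟨x, hx, vx⟩ := memU.1 hv
      exact ⟨x, ⟨(memSt.1 hx).1, fun p hp => memU.2 ⟨x, hx, hp⟩, (memSt.1 hx).2, vx⟩,
        fun y ⟨y1, _, y2, y3⟩ => hl y y1 x (memSt.1 hx).1 u v y2 y3 (memSt.1 hx).2 vx n⟩
    · obtain ⟨v, hv⟩ : x.Nonempty := by rw [← card_pos, hu x hx]; omega
      exact ⟨_, mem_image_of_mem _ (mem_univ v), fun p hp => memU.2 ⟨x, memSt.2 ⟨hx, hv⟩, hp⟩⟩
  · rintro ⟨P, p1, p2, p3⟩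
    rw [← deg_sum E hu univ (fun e _ => subset_univ e), sum_congr rfl (g := fun _ => r + 1)]
    · simp [mul_comm]
    intro v _
    obtain ⟨B, ⟨hB, vB⟩, uq⟩ := p1 v
    have e : (U (St E v)).erase v = B.erase v := by
      ext w
      simp only [mem_erase, memU, memSt]
      refine and_congr_right fun n => ⟨fun ⟨x, ⟨hx, vx⟩, wx⟩ => ?_, fun wB => ?_⟩
      · obtain ⟨B', h1, h2⟩ := p3 x hx
        exact uq B' ⟨h1, h2 vx⟩ ▸ h2 wx
      · obtain ⟨x, ⟨x1, -, x2, x3⟩, -⟩ := (p2 B hB).2 w wB v vB n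
        exact ⟨x, ⟨x1, x3⟩, x2⟩
    have := star_card hu hl v _ Subset.rfl
    rw [e, card_erase_of_mem vB, (p2 B hB).1] at this
    obtain ⟨s, rfl⟩ : ∃ s, r = s + 1 := ⟨r - 1, by omega⟩
    rw [Nat.add_sub_cancel, show (s + 1) ^ 2 = (s + 1 + 1) * s + 1 by ring, Nat.add_sub_cancel] at this
    exact (Nat.eq_of_mul_eq_mul_right (by omega) this).symm

end Pool.Agent.Results.MP_d43ba4_co.Turan
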